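import Mathlib

set_option autoImplicit false

namespace Pool.Agent.Results.MP_155d71_an.Counter

open Filter Topology BoundedContinuousFunction

def IsLUC {S : Type} [Mul S] [TopologicalSpace S] (f : S →ᵇ ℂ) : Prop :=
  ∀ s₀ : S, ∀ ε > 0, ∀ᶠ s in 𝓝 s₀, ∀ t, ‖f (s * t) - f (s₀ * t)‖ ≤ ε

def ELA (S : Type) [Mul S] [TopologicalSpace S] : Prop :=
  ∃ m : (S →ᵇ ℂ) →L[ℂ] ℂ, m 1 = 1 ∧ ‖m‖ = 1 ∧ (∀ f g, m (f * g) = m f * m g) ∧
    ∀ (s : S) (f g : S →ᵇ ℂ), IsLUC f → (∀ t, g t = f (s * t)) → m g = m f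

@[reducible] noncomputable def weakTop {E : Type} [NormedAddCommGroup E] [NormedSpace ℝ E] (C : Set E) :
    TopologicalSpace C :=
  TopologicalSpace.induced (fun x : C => toWeakSpace ℝ E x) inferInstance

def IsRep {S E : Type} [Mul S] [TopologicalSpace S] [NormedAddCommGroup E] [NormedSpace ℝ E]
    (C : Set E) (T : S → C → C) : Prop :=
  (∀ s t x, T (s * t) x = T s (T t x)) ∧
  (∀ s x y, ‖(T s x : E) - T s y‖ ≤ ‖(x : E) - y‖) ∧
  (∀ x, Continuous[_, weakTop C] fun s => T s x) ∧
  (∀ s, Continuous[weakTop C, weakTop C] (T s))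

abbrev H := lp (fun _ : ℕ => ℝ) 2

noncomputable def e (n : ℕ) : H := lp.single 2 n 1

def C : Set H := insert 0 (Set.range e)

theorem e_tend : Tendsto (fun n => toWeakSpace ℝ H (e n)) atTop (𝓝 (toWeakSpace ℝ H 0)) := by
  refine (WeakBilin.tendsto_iff_forall_eval_tendsto (topDualPairing ℝ H).flip ?_).mpr fun φ => ?_
  · intro x y h
    exact (SeparatingDual.eq_iff_forall_dual_eq (R := ℝ)).mpr fun φ => LinearMap.congr_fun h φ
  · show Tendsto (fun n => φ (e n)) atTop (𝓝 (φ 0))
    obtain ⟨y, rfl⟩ := (InnerProductSpace.toDual ℝ H).surjective φ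
    have h1 : ∀ n, InnerProductSpace.toDual ℝ H y (e n) = y n := by
      intro n
      simp [e, lp.inner_single_right]
    simp only [h1, map_zero]
    have h2 := ((lp.memℓp y).summable (by norm_num)).tendsto_atTop_zero
    have h3 : ∀ n, ‖y n‖ ^ (2 : ENNReal).toReal = ‖y n‖ ^ 2 := fun n => by norm_num
    simp only [h3] at h2
    rw [tendsto_zero_iff_norm_tendsto_zero]
    simpa [Real.sqrt_sq_eq_abs] using h2.sqrt

theorem C_compact : IsCompact (toWeakSpace ℝ H '' C) := by
  rw [C, Set.image_insert_eq, ← Set.range_comp]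
  exact e_tend.isCompact_insert_range

def S : Type := {s : C → C // Continuous[weakTop C, weakTop C] s ∧
  ∀ x y, ‖(s x : H) - s y‖ ≤ ‖(x : H) - y‖}

instance : Semigroup S where
  mul s t := ⟨s.1 ∘ t.1, @Continuous.comp _ _ _ (weakTop C) (weakTop C) (weakTop C) _ _ s.2.1 t.2.1,
    fun x y => (s.2.2 _ _).trans (t.2.2 x y)⟩
  mul_assoc _ _ _ := rfl

noncomputable def ev (s : S) (x : C) : WeakSpace ℝ H := toWeakSpace ℝ H (s.1 x)

noncomputable instance : TopologicalSpace S := TopologicalSpace.induced ev inferInstance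

theorem ev_cont (x : C) : Continuous fun s : S => ev s x :=
  (continuous_apply x).comp (continuous_induced_dom (f := ev))

theorem cont_iff {X : Type} [TopologicalSpace X] (f : X → S) (h : ∀ x, Continuous fun a => ev (f a) x) :
    Continuous f := continuous_induced_rng.mpr (continuous_pi h)

theorem tend_iff (f : ℕ → S) (s : S) (h : ∀ x, Tendsto (fun a => ev (f a) x) atTop (𝓝 (ev s x))) :
    Tendsto f atTop (𝓝 s) := by
  rw [nhds_induced, tendsto_comap_iff]
  exact tendsto_pi_nhds.mpr h

theorem T_cont (x : C) : Continuous[_, weakTop C] fun s : S => s.1 x :=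
  continuous_induced_rng.mpr (ev_cont x)

def cst (k : C) : S := ⟨fun _ => k, @continuous_const _ _ (weakTop C) (weakTop C) _,
  fun x y => by simp⟩

def one : S := ⟨id, @continuous_id _ (weakTop C), fun _ _ => le_rfl⟩

theorem coord (x : C) (n : ℕ) : ((x : H) = e n ∧ (x : H) n = 1) ∨ (x : H) n = 0 := by
  obtain ⟨x, rfl | ⟨m, rfl⟩⟩ := x
  · right; rfl
  · by_cases h : m = n
    · subst h
      left
      simp [e]
    · right
      simp [e, lp.single_apply, Ne.symm h]

theorem norm_e (n : ℕ) : ‖e n‖ = 1 := by simp [e, lp.norm_single]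

theorem inner_e (y : H) (n : ℕ) : inner ℝ y (e n) = y n := by simp [e, lp.inner_single_right]

theorem C_norm (q : C) : ‖(q : H)‖ ≤ 1 := by
  obtain ⟨x, rfl | ⟨m, rfl⟩⟩ := q
  · simp
  · exact (norm_e m).le

theorem C_inner (q y : C) : 0 ≤ inner ℝ (y : H) (q : H) := by
  obtain ⟨x, rfl | ⟨m, rfl⟩⟩ := q
  · simp
  · show 0 ≤ inner ℝ (y : H) (e m)
    rw [inner_e]
    rcases coord y m with h | h
    · simp [h.2]
    · simp [h]

theorem nonexp (q y : C) (n : ℕ) (hy : (y : H) n = 0) : ‖(y : H) - q‖ ≤ ‖(y : H) - e n‖ := by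
  refine (sq_le_sq₀ (norm_nonneg _) (norm_nonneg _)).mp ?_
  rw [norm_sub_sq_real, norm_sub_sq_real, inner_e, hy, norm_e]
  nlinarith [C_norm q, C_inner q y, norm_nonneg (q : H)]

noncomputable def mv (q : C) (n : ℕ) : S :=
  ⟨fun x => ⟨x + (x : H) n • ((q : H) - e n), by
      rcases coord x n with h | h
      · rw [h.2, h.1]
        simp
      · simp [h]⟩, by
    refine continuous_induced_rng.mpr ?_
    let _ := weakTop C
    have h1 : Continuous fun x : C => toWeakSpace ℝ H x := continuous_induced_dom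
    have h2 : Continuous fun x : C => (x : H) n := by
      have := (WeakBilin.eval_continuous (topDualPairing ℝ H).flip
        (InnerProductSpace.toDual ℝ H (e n))).comp h1
      refine this.congr fun x => ?_
      show inner ℝ (e n) (x : H) = _
      rw [real_inner_comm, inner_e]
    exact h1.add (h2.smul (continuous_const (y := toWeakSpace ℝ H ((q : H) - e n)))), by
    intro x y
    show ‖(x : H) + (x : H) n • ((q : H) - e n) - ((y : H) + (y : H) n • ((q : H) - e n))‖ ≤ _
    rcases coord x n with h | h <;> rcases coord y n with g | g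
    · rw [h.2, g.2]
      simp
    · rw [h.2, g, h.1, norm_sub_rev, norm_sub_rev (e n)]
      simpa using nonexp q y n g
    · rw [h, g.2, g.1]
      simpa using nonexp q x n h
    · simp [h, g]⟩

noncomputable def z : C := ⟨0, Set.mem_insert _ _⟩

noncomputable def eC (n : ℕ) : C := ⟨e n, Set.mem_insert_of_mem _ ⟨n, rfl⟩⟩

theorem mv_tend (q : C) : Tendsto (mv q) atTop (𝓝 one) := by
  refine tend_iff _ _ fun x => tendsto_const_nhds.congr' ?_
  have : ∀ᶠ n in atTop, (x : H) n = 0 := by
    obtain ⟨x, rfl | ⟨m, rfl⟩⟩ := x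
    · exact Eventually.of_forall fun n => rfl
    · filter_upwards [eventually_gt_atTop m] with n hn
      simp [e, lp.single_apply, hn.ne']
  filter_upwards [this] with n hn
  show toWeakSpace ℝ H x = toWeakSpace ℝ H (x + (x : H) n • ((q : H) - e n))
  simp [hn]

theorem luc_const (f : S →ᵇ ℂ) (hf : IsLUC f) (q : C) : f (cst q) = f (cst z) := by
  have h1 : Tendsto (fun n => cst (eC n)) atTop (𝓝 (cst z)) := tend_iff _ _ fun _ => e_tend
  have h2 := (f.continuous.tendsto _).comp h1
  have h3 : ∀ n, mv q n * cst (eC n) = cst q := by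
    intro n
    apply Subtype.ext
    funext x
    apply Subtype.ext
    show e n + e n n • ((q : H) - e n) = q
    simp [e]
  have h4 : Tendsto (fun n => f (cst (eC n))) atTop (𝓝 (f (cst q))) := by
    rw [Metric.tendsto_nhds]
    intro ε hε
    filter_upwards [(mv_tend q).eventually (hf one (ε / 2) (by positivity))] with n hn
    have := hn (cst (eC n))
    rw [h3] at this
    rw [dist_comm, dist_eq_norm]
    exact lt_of_le_of_lt this (by linarith)
  exact tendsto_nhds_unique h4 h2

theorem result : ∃ (S : Type) (_ : Semigroup S) (_ : TopologicalSpace S) (_ : T2Space S)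
    (E : Type) (_ : NormedAddCommGroup E) (_ : NormedSpace ℝ E) (_ : CompleteSpace E)
    (C : Set E) (T : S → C → C),
    (∀ s : S, Continuous fun t : S => s * t) ∧ (∀ t : S, Continuous fun s : S => s * t) ∧
    ELA S ∧ IsClosed (toWeakSpace ℝ E '' C) ∧ IsRep C T ∧
    (∃ c : C, IsCompact (closure (Set.range fun s => toWeakSpace ℝ E (T s c)))) ∧
    ¬ ∃ x : C, ∀ s, T s x = x := by
  have hT2 : T2Space S := by
    refine (IsEmbedding.mk ⟨rfl⟩ fun s t h => ?_ : IsEmbedding ev).t2Space
    apply Subtype.ext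
    funext x
    exact Subtype.ext (congrFun h x)
  refine ⟨S, inferInstance, inferInstance, hT2, H, inferInstance, inferInstance, inferInstance,
    C, fun s => s.1, fun s => cont_iff _ fun x => ?_, fun t => cont_iff _ fun x => ev_cont (t.1 x),
    ⟨evalCLM ℂ (cst z), rfl, ?_, fun _ _ => rfl, fun s f g hf hg => ?_⟩, C_compact.isClosed,
    ⟨fun _ _ _ => rfl, fun s => s.2.2, T_cont, fun s => s.2.1⟩, ⟨z, ?_⟩, ?_⟩
  · let _ := weakTop C
    exact (continuous_induced_dom (f := fun x : C => toWeakSpace ℝ H x)).comp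
      (s.2.1.comp (T_cont x))
  · apply le_antisymm
    · exact ContinuousLinearMap.opNorm_le_bound _ zero_le_one fun f => by
        simpa using f.norm_coe_le_norm _
    · have : Nonempty S := ⟨one⟩
      simpa using (evalCLM ℂ (cst z) : (S →ᵇ ℂ) →L[ℂ] ℂ).le_opNorm 1
  · show g (cst z) = f (cst z)
    rw [hg]
    exact luc_const f hf (s.1 z)
  · refine C_compact.closure_of_subset ?_
    rintro _ ⟨s, rfl⟩
    exact ⟨_, (s.1 z).2, rfl⟩
  · rintro ⟨x, hx⟩
    have h1 : z = x := hx (cst z)
    have h2 : eC 0 = x := hx (cst (eC 0))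
    have h3 : e 0 = 0 := congrArg Subtype.val (h2.trans h1.symm)
    have := norm_e 0
    rw [h3] at this
    simp at this

end Pool.Agent.Results.MP_155d71_an.Counter
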